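import Pool.Agent.H28.VM.Targets

/-!
# Square membrane (MP_71a28e_an): modules GEOA and GEOC (elementary geometry)
-/

set_option autoImplicit false

namespace Pool.Agent.H80.VM

open Pool.Agent.H28.VM

/-- hitting the integers with a linear function -/
lemma hit (c b A : ℝ) (hb : b ≠ 0) :
    ∃ j : ℤ, ∃ s : ℝ, A ≤ s ∧ s ≤ A + 1 / |b| ∧ c + s * b = j := by
  rcases lt_or_gt_of_ne hb with h | h
  · refine ⟨⌊c + A * b⌋, ((⌊c + A * b⌋ : ℤ) - c) / b, ?_, ?_, ?_⟩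
    · rw [le_div_iff_of_neg h]
      have := Int.floor_le (c + A * b)
      linarith
    · rw [abs_of_neg h, div_le_iff_of_neg h]
      have := Int.lt_floor_add_one (c + A * b)
      have e : (A + 1 / -b) * b = A * b - 1 := by field_simp; ring
      rw [e]; linarith
    · field_simp; ring
  · refine ⟨⌈c + A * b⌉, ((⌈c + A * b⌉ : ℤ) - c) / b, ?_, ?_, ?_⟩
    · rw [le_div_iff₀ h]
      have := Int.le_ceil (c + A * b)
      linarith
    · rw [abs_of_pos h, div_le_iff₀ h]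
      have := Int.ceil_lt_add_one (c + A * b)
      have e : (A + 1 / b) * b = A * b + 1 := by field_simp
      rw [e]; linarith
    · field_simp; ring

lemma nm_pos {k : ℤ × ℤ} (hk : k ≠ 0) : 0 < nm k := by
  unfold nm
  apply Real.sqrt_pos.mpr
  rcases k with ⟨a, b⟩
  have h : a ≠ 0 ∨ b ≠ 0 := by
    by_contra h
    push Not at h
    exact hk (by simp [h.1, h.2])
  rcases h with h | h
  · have : (0 : ℝ) < (a : ℝ) ^ 2 := by positivity
    have h2 : (0 : ℝ) ≤ (b : ℝ) ^ 2 := by positivity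
    simpa using by linarith
  · have : (0 : ℝ) < (b : ℝ) ^ 2 := by positivity
    have h2 : (0 : ℝ) ≤ (a : ℝ) ^ 2 := by positivity
    simpa using by linarith

lemma nm_sq (k : ℤ × ℤ) : nm k ^ 2 = (k.1 : ℝ) ^ 2 + (k.2 : ℝ) ^ 2 := by
  unfold nm
  rw [Real.sq_sqrt (by positivity)]

/-- core of GEOA in real coordinates -/
lemma geoA_core (w₁ w₂ : ℝ) (m₁ m₂ : ℤ) (h₁ : (m₁ : ℝ) = w₁) (h₂ : (m₂ : ℝ) = w₂)
    (hW1 : 1 ≤ w₁ ^ 2 + w₂ ^ 2) (hW2 : w₁ ^ 2 + w₂ ^ 2 ≤ 2)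
    (e₁ e₂ : ℝ) (he : e₁ ^ 2 + e₂ ^ 2 = 1)
    (hn : 200 * |e₁ * w₁ + e₂ * w₂| ≤ |e₂ * w₁ - e₁ * w₂|) (φ τ : ℝ) (hφ : |φ| ≤ 1 / 10)
    (A : ℝ) (hA : -10 ≤ A) (hA' : A + 9 ≤ 10) :
    ∃ s : ℝ, A ≤ s ∧ s ≤ A + 9 ∧ ∃ n : ℤ × ℤ,
      (φ * w₁ / (w₁ ^ 2 + w₂ ^ 2) - τ * w₂ + s * e₁ - 2 * Real.pi * n.1) ^ 2 +
      (φ * w₂ / (w₁ ^ 2 + w₂ ^ 2) + τ * w₁ + s * e₂ - 2 * Real.pi * n.2) ^ 2 ≤ (1.45 : ℝ) ^ 2 := by
  set W := w₁ ^ 2 + w₂ ^ 2 with hW
  set a := e₁ * w₁ + e₂ * w₂ with ha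
  set b := e₂ * w₁ - e₁ * w₂ with hb
  have hab : a ^ 2 + b ^ 2 = W := by
    rw [ha, hb, hW]
    linear_combination (w₁ ^ 2 + w₂ ^ 2) * he
  have hWpos : 0 < W := by linarith
  have hab2 : 40000 * a ^ 2 ≤ b ^ 2 := by
    have h := mul_self_le_mul_self (by positivity) hn
    have e1 : 200 * |a| * (200 * |a|) = 40000 * a ^ 2 := by
      rw [← sq_abs a]; ring
    have e2 : |b| * |b| = b ^ 2 := by rw [← sq_abs b]; ring
    rw [e1, e2] at h
    exact h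
  have hb2 : W * 40000 ≤ 40001 * b ^ 2 := by nlinarith
  have hbpos : 0 < |b| := by
    rw [abs_pos]
    intro h0
    rw [h0] at hb2
    nlinarith
  have hb0 : b ≠ 0 := abs_pos.mp hbpos
  have hpi := Real.pi_pos
  have hpi2 : Real.pi < 3.1416 := Real.pi_lt_d4
  have hb' : b / (2 * Real.pi * W) ≠ 0 := by positivity
  obtain ⟨j, s, hs1, hs2, hs3⟩ := hit (τ / (2 * Real.pi)) (b / (2 * Real.pi * W)) A hb'
  have hlen : 1 / |b / (2 * Real.pi * W)| ≤ 9 := by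
    rw [abs_div, abs_of_pos (by positivity : (0 : ℝ) < 2 * Real.pi * W), one_div_div]
    rw [div_le_iff₀ hbpos]
    apply le_of_sq_le_sq _ (by positivity)
    have e2 : (9 * |b|) ^ 2 = 81 * b ^ 2 := by rw [← sq_abs b]; ring
    rw [e2]
    have hp : Real.pi ^ 2 ≤ 9.8697 := by nlinarith
    have h3 : (2 * Real.pi * W) ^ 2 = 4 * Real.pi ^ 2 * W ^ 2 := by ring
    rw [h3]
    have h4 : W ^ 2 ≤ 2 * W := by nlinarith
    have h5 : 4 * Real.pi ^ 2 * W ^ 2 ≤ 4 * 9.8697 * (2 * W) := by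
      apply mul_le_mul _ h4 (by positivity) (by positivity)
      linarith
    nlinarith
  refine ⟨s, hs1, by linarith, (-j * m₂, j * m₁), ?_⟩
  have hkey : τ * W + s * b = 2 * Real.pi * j * W := by
    rw [← hs3]
    field_simp
  push_cast
  rw [h₁, h₂]
  set P := φ * w₁ / W - τ * w₂ + s * e₁ - 2 * Real.pi * (-j * w₂) with hP
  set R := φ * w₂ / W + τ * w₁ + s * e₂ - 2 * Real.pi * (j * w₁) with hR
  have h1 : P * w₁ + R * w₂ = φ + s * a := by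
    have : φ * w₁ / W * w₁ + φ * w₂ / W * w₂ = φ := by
      rw [show φ * w₁ / W * w₁ + φ * w₂ / W * w₂ = φ * (w₁ ^ 2 + w₂ ^ 2) / W by ring, ← hW]
      field_simp
    rw [hP, hR, ha]
    linear_combination this
  have h2 : R * w₁ - P * w₂ = 0 := by
    rw [hP, hR]
    have e : (φ * w₂ / W + τ * w₁ + s * e₂ - 2 * Real.pi * (j * w₁)) * w₁ -
        (φ * w₁ / W - τ * w₂ + s * e₁ - 2 * Real.pi * (-j * w₂)) * w₂ =
        τ * (w₁ ^ 2 + w₂ ^ 2) + s * (e₂ * w₁ - e₁ * w₂) -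
          2 * Real.pi * j * (w₁ ^ 2 + w₂ ^ 2) := by ring
    rw [e, ← hW, ← hb]
    linarith
  have h3 : (P ^ 2 + R ^ 2) * W = (φ + s * a) ^ 2 := by
    rw [← h1, hW]
    linear_combination (R * w₁ - P * w₂) * h2
  have ha1 : |a| ≤ 1 / 100 := by
    apply abs_le_of_sq_le_sq _ (by norm_num)
    nlinarith
  have hsabs : |s| ≤ 10 := by
    rw [abs_le]; constructor <;> linarith
  have h4 : |φ + s * a| ≤ 1 := by
    calc |φ + s * a| ≤ |φ| + |s * a| := abs_add_le _ _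
      _ = |φ| + |s| * |a| := by rw [abs_mul]
      _ ≤ 1 / 10 + 10 * (1 / 100) := by gcongr
      _ ≤ 1 := by norm_num
  have h5 : (φ + s * a) ^ 2 ≤ 1 := by
    rw [← sq_abs]
    nlinarith [abs_nonneg (φ + s * a)]
  have h6 : P ^ 2 + R ^ 2 ≤ (P ^ 2 + R ^ 2) * W := by
    have : 0 ≤ P ^ 2 + R ^ 2 := by positivity
    nlinarith
  linarith [h3, h5, h6, (by norm_num : (1 : ℝ) ≤ (1.45 : ℝ) ^ 2)]

theorem geoA : T_geoA := by
  intro w hw k hk hnear φ τ hφ T hT t ht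
  have hn0 := nm_pos hk
  have hsq := nm_sq k
  have he : ((k.1 : ℝ) / nm k) ^ 2 + ((k.2 : ℝ) / nm k) ^ 2 = 1 := by
    rw [div_pow, div_pow, ← add_div, ← hsq, div_self (by positivity)]
  have hnear' : 200 * |(k.1 : ℝ) / nm k * (w.1 : ℝ) + (k.2 : ℝ) / nm k * (w.2 : ℝ)| ≤
      |(k.2 : ℝ) / nm k * (w.1 : ℝ) - (k.1 : ℝ) / nm k * (w.2 : ℝ)| := by
    have h : (200 : ℝ) * |((k.1 * w.1 + k.2 * w.2 : ℤ) : ℝ)| ≤
        |((k.2 * w.1 - k.1 * w.2 : ℤ) : ℝ)| := by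
      have := hnear
      unfold near al pe at this
      rw [← Int.cast_abs, ← Int.cast_abs]
      exact_mod_cast this
    have e1 : (k.1 : ℝ) / nm k * (w.1 : ℝ) + (k.2 : ℝ) / nm k * (w.2 : ℝ) =
        ((k.1 * w.1 + k.2 * w.2 : ℤ) : ℝ) / nm k := by push_cast; ring
    have e2 : (k.2 : ℝ) / nm k * (w.1 : ℝ) - (k.1 : ℝ) / nm k * (w.2 : ℝ) =
        ((k.2 * w.1 - k.1 * w.2 : ℤ) : ℝ) / nm k := by push_cast; ring
    rw [e1, e2, abs_div, abs_div, abs_of_pos hn0, ← mul_div_assoc]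
    gcongr
  have hW : (1 : ℝ) ≤ (w.1 : ℝ) ^ 2 + (w.2 : ℝ) ^ 2 ∧ (w.1 : ℝ) ^ 2 + (w.2 : ℝ) ^ 2 ≤ 2 := by
    simp only [WW, Finset.mem_insert, Finset.mem_singleton] at hw
    rcases hw with rfl | rfl | rfl | rfl <;> norm_num
  rcases le_or_gt 0 t with h0 | h0
  · obtain ⟨s, h1, h2, n, h3⟩ := geoA_core w.1 w.2 w.1 w.2 rfl rfl hW.1 hW.2 _ _ he hnear' φ τ hφ
      (-10) (by norm_num) (by norm_num)
    have ht' := abs_le.mp ht
    refine ⟨t + s, ?_, ?_, n, ?_⟩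
    · rw [abs_le]; constructor <;> linarith
    · rw [abs_le]; constructor <;> linarith
    · simp only
      rw [show t + s - t = s by ring]
      exact h3
  · obtain ⟨s, h1, h2, n, h3⟩ := geoA_core w.1 w.2 w.1 w.2 rfl rfl hW.1 hW.2 _ _ he hnear' φ τ hφ
      1 (by norm_num) (by norm_num)
    have ht' := abs_le.mp ht
    refine ⟨t + s, ?_, ?_, n, ?_⟩
    · rw [abs_le]; constructor <;> linarith
    · rw [abs_le]; constructor <;> linarith
    · simp only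
      rw [show t + s - t = s by ring]
      exact h3

/-- nearest point of `2πℤ` -/
lemma nearest (x : ℝ) : ∃ i : ℤ, |x - 2 * Real.pi * i| ≤ Real.pi := by
  refine ⟨round (x / (2 * Real.pi)), ?_⟩
  have h := abs_sub_round (x / (2 * Real.pi))
  have hpi := Real.pi_pos
  have e : x - 2 * Real.pi * (round (x / (2 * Real.pi)) : ℤ) =
      2 * Real.pi * (x / (2 * Real.pi) - round (x / (2 * Real.pi))) := by
    field_simp
  rw [e, abs_mul, abs_of_pos (by positivity)]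
  nlinarith

lemma geoC_core (e₁ e₂ x₀ y₀ : ℝ) (he : e₁ ^ 2 + e₂ ^ 2 = 1) (h0 : 0 ≤ e₂) (h1 : e₂ ≤ e₁)
    (h2 : e₁ ≤ 400 * e₂) (h3 : e₁ + e₂ ≤ 400 * (e₁ - e₂)) :
    ∃ s : ℝ, |s| ≤ 2000 ∧ ∃ i j : ℤ,
      (x₀ + s * e₁ - 2 * Real.pi * i) ^ 2 + (y₀ + s * e₂ - 2 * Real.pi * j) ^ 2 ≤
        (1.45 : ℝ) ^ 2 := by
  have hpi := Real.pi_pos
  have hpi2 : Real.pi < 3.1416 := Real.pi_lt_d4
  have hpsq : Real.pi ^ 2 ≤ 9.8697 := by nlinarith
  have he1 : 0.7 ≤ e₁ := by nlinarith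
  have he1' : e₁ ≤ 1 := by nlinarith
  have he2 : 0.00175 ≤ e₂ := by linarith
  have he2' : e₂ ≤ 1 := by linarith
  rcases le_or_gt e₂ 0.46 with hc | hc
  · have hb' : e₂ / (2 * Real.pi) ≠ 0 := by positivity
    obtain ⟨j, s₀, hs1, hs2, hs3⟩ :=
      hit (y₀ / (2 * Real.pi)) (e₂ / (2 * Real.pi)) (-(Real.pi / e₂)) hb'
    have hlen : 1 / |e₂ / (2 * Real.pi)| = 2 * Real.pi / e₂ := by
      rw [abs_of_pos (by positivity), one_div_div]
    rw [hlen] at hs2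
    have hkey : y₀ + s₀ * e₂ = 2 * Real.pi * j := by
      rw [← hs3]; field_simp
    have hpe : Real.pi / e₂ ≤ 1796 := by
      rw [div_le_iff₀ (by linarith)]
      nlinarith
    have hs0 : |s₀| ≤ 1796 := by
      rw [abs_le]
      have : 2 * Real.pi / e₂ = 2 * (Real.pi / e₂) := by ring
      constructor <;> linarith
    obtain ⟨i, hi⟩ := nearest (x₀ + s₀ * e₁)
    set x := x₀ + s₀ * e₁ - 2 * Real.pi * i with hx
    refine ⟨s₀ - x * e₁, ?_, i, j, ?_⟩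
    · calc |s₀ - x * e₁| ≤ |s₀| + |x * e₁| := abs_sub _ _
        _ = |s₀| + |x| * |e₁| := by rw [abs_mul]
        _ ≤ 1796 + Real.pi * 1 := by
            gcongr
            rw [abs_le]; constructor <;> linarith
        _ ≤ 2000 := by linarith
    · have e : (x₀ + (s₀ - x * e₁) * e₁ - 2 * Real.pi * i) ^ 2 +
          (y₀ + (s₀ - x * e₁) * e₂ - 2 * Real.pi * j) ^ 2 = x ^ 2 * e₂ ^ 2 := by
        have a1 : x₀ + (s₀ - x * e₁) * e₁ - 2 * Real.pi * i = x * e₂ ^ 2 := by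
          have : x₀ + (s₀ - x * e₁) * e₁ - 2 * Real.pi * i = x - x * e₁ ^ 2 := by
            rw [hx]; ring
          rw [this]; linear_combination (-x) * he
        have a2 : y₀ + (s₀ - x * e₁) * e₂ - 2 * Real.pi * j = -(x * e₁ * e₂) := by
          linear_combination hkey
        rw [a1, a2]
        linear_combination (x ^ 2 * e₂ ^ 2) * he
      rw [e]
      have hx2 : x ^ 2 ≤ 9.8697 := by
        have := sq_abs x
        nlinarith [abs_nonneg x]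
      have he22 : e₂ ^ 2 ≤ 0.2116 := by nlinarith
      calc x ^ 2 * e₂ ^ 2 ≤ 9.8697 * 0.2116 := by gcongr
        _ ≤ (1.45 : ℝ) ^ 2 := by norm_num
  · have hd1 : 1 ≤ 400 * (e₁ - e₂) := by nlinarith
    have hd2 : e₁ - e₂ ≤ 0.428 := by nlinarith
    have hd0 : 0 < e₁ - e₂ := by linarith
    have hb' : (e₁ - e₂) / (2 * Real.pi) ≠ 0 := by positivity
    obtain ⟨j, s₀, hs1, hs2, hs3⟩ :=
      hit ((x₀ - y₀) / (2 * Real.pi)) ((e₁ - e₂) / (2 * Real.pi)) (-(Real.pi / (e₁ - e₂))) hb'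
    have hlen : 1 / |(e₁ - e₂) / (2 * Real.pi)| = 2 * Real.pi / (e₁ - e₂) := by
      rw [abs_of_pos (by positivity), one_div_div]
    rw [hlen] at hs2
    have hkey : (x₀ - y₀) + s₀ * (e₁ - e₂) = 2 * Real.pi * j := by
      rw [← hs3]; field_simp
    have hpe : Real.pi / (e₁ - e₂) ≤ 1257 := by
      rw [div_le_iff₀ hd0]
      nlinarith
    have hs0 : |s₀| ≤ 1257 := by
      rw [abs_le]
      have : 2 * Real.pi / (e₁ - e₂) = 2 * (Real.pi / (e₁ - e₂)) := by ring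
      constructor <;> linarith
    obtain ⟨i, hi⟩ := nearest (y₀ + s₀ * e₂)
    set r := y₀ + s₀ * e₂ - 2 * Real.pi * i with hr
    refine ⟨s₀ - r * (e₁ + e₂), ?_, i + j, i, ?_⟩
    · calc |s₀ - r * (e₁ + e₂)| ≤ |s₀| + |r * (e₁ + e₂)| := abs_sub _ _
        _ = |s₀| + |r| * |e₁ + e₂| := by rw [abs_mul]
        _ ≤ 1257 + Real.pi * 2 := by
            gcongr
            rw [abs_le]; constructor <;> linarith
        _ ≤ 2000 := by linarith
    · push_cast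
      have a1 : x₀ + (s₀ - r * (e₁ + e₂)) * e₁ - 2 * Real.pi * (i + j) =
          r * (1 - (e₁ + e₂) * e₁) := by
        linear_combination hkey - hr
      have a2 : y₀ + (s₀ - r * (e₁ + e₂)) * e₂ - 2 * Real.pi * i =
          r * (1 - (e₁ + e₂) * e₂) := by
        linear_combination -hr
      rw [a1, a2]
      have e : (r * (1 - (e₁ + e₂) * e₁)) ^ 2 + (r * (1 - (e₁ + e₂) * e₂)) ^ 2 =
          r ^ 2 * (e₁ - e₂) ^ 2 := by
        have hh : (1 - (e₁ + e₂) * e₁) = e₂ * (e₂ - e₁) := by linear_combination -he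
        have hh2 : (1 - (e₁ + e₂) * e₂) = e₁ * (e₁ - e₂) := by linear_combination -he
        rw [hh, hh2]
        linear_combination (r ^ 2 * (e₁ - e₂) ^ 2) * he
      rw [e]
      have hx2 : r ^ 2 ≤ 9.8697 := by
        have := sq_abs r
        nlinarith [abs_nonneg r]
      have hd22 : (e₁ - e₂) ^ 2 ≤ 0.1832 := by nlinarith
      calc r ^ 2 * (e₁ - e₂) ^ 2 ≤ 9.8697 * 0.1832 := by gcongr
        _ ≤ (1.45 : ℝ) ^ 2 := by norm_num

/-- without the order and sign conditions -/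
lemma geoC_pos (e₁ e₂ x₀ y₀ : ℝ) (he : e₁ ^ 2 + e₂ ^ 2 = 1) (h0 : 0 ≤ e₁) (h0' : 0 ≤ e₂)
    (h1 : e₂ ≤ 400 * e₁) (h2 : e₁ ≤ 400 * e₂) (h3 : e₁ + e₂ ≤ 400 * |e₁ - e₂|) :
    ∃ s : ℝ, |s| ≤ 2000 ∧ ∃ i j : ℤ,
      (x₀ + s * e₁ - 2 * Real.pi * i) ^ 2 + (y₀ + s * e₂ - 2 * Real.pi * j) ^ 2 ≤
        (1.45 : ℝ) ^ 2 := by
  rcases le_total e₂ e₁ with h | h
  · rw [abs_of_nonneg (by linarith)] at h3
    exact geoC_core e₁ e₂ x₀ y₀ he h0' h h2 h3
  · rw [abs_of_nonpos (by linarith)] at h3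
    obtain ⟨s, hs, i, j, hij⟩ := geoC_core e₂ e₁ y₀ x₀ (by linarith) h0 h h1 (by linarith)
    exact ⟨s, hs, j, i, by linarith⟩

lemma geoC_gen (e₁ e₂ x₀ y₀ : ℝ) (he : e₁ ^ 2 + e₂ ^ 2 = 1)
    (h1 : |e₂| ≤ 400 * |e₁|) (h2 : |e₁| ≤ 400 * |e₂|)
    (h3 : |e₂ - e₁| ≤ 400 * |e₁ + e₂|) (h4 : |e₁ + e₂| ≤ 400 * |e₁ - e₂|) :
    ∃ s : ℝ, |s| ≤ 2000 ∧ ∃ i j : ℤ,
      (x₀ + s * e₁ - 2 * Real.pi * i) ^ 2 + (y₀ + s * e₂ - 2 * Real.pi * j) ^ 2 ≤
        (1.45 : ℝ) ^ 2 := by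
  rcases le_total 0 e₁ with a | a <;> rcases le_total 0 e₂ with b | b
  · apply geoC_pos e₁ e₂ x₀ y₀ he a b
    · rwa [abs_of_nonneg a, abs_of_nonneg b] at h1
    · rwa [abs_of_nonneg a, abs_of_nonneg b] at h2
    · rwa [abs_of_nonneg (by linarith : 0 ≤ e₁ + e₂)] at h4
  · obtain ⟨s, hs, i, j, hij⟩ := geoC_pos e₁ (-e₂) x₀ (-y₀) (by linarith [neg_sq e₂]) a
      (by linarith)
      (by rwa [abs_of_nonneg a, abs_of_nonpos b] at h1)
      (by rwa [abs_of_nonneg a, abs_of_nonpos b] at h2)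
      (by
        rw [abs_sub_comm, abs_of_nonneg (by linarith : 0 ≤ e₁ - e₂)] at h3
        rw [sub_neg_eq_add]
        linarith)
    refine ⟨s, hs, i, -j, ?_⟩
    push_cast
    have e : (y₀ + s * e₂ - 2 * Real.pi * -(j : ℝ)) ^ 2 =
        (-y₀ + s * -e₂ - 2 * Real.pi * j) ^ 2 := by ring
    rw [e]; exact hij
  · obtain ⟨s, hs, i, j, hij⟩ := geoC_pos (-e₁) e₂ (-x₀) y₀ (by linarith [neg_sq e₁])
      (by linarith) b
      (by rwa [abs_of_nonpos a, abs_of_nonneg b] at h1)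
      (by rwa [abs_of_nonpos a, abs_of_nonneg b] at h2)
      (by
        rw [abs_of_nonneg (by linarith : 0 ≤ e₂ - e₁)] at h3
        have : |-e₁ - e₂| = |e₁ + e₂| := by rw [← abs_neg]; ring_nf
        rw [this]
        linarith)
    refine ⟨s, hs, -i, j, ?_⟩
    push_cast
    have e : (x₀ + s * e₁ - 2 * Real.pi * -(i : ℝ)) ^ 2 =
        (-x₀ + s * -e₁ - 2 * Real.pi * i) ^ 2 := by ring
    rw [e]; exact hij
  · obtain ⟨s, hs, i, j, hij⟩ := geoC_pos (-e₁) (-e₂) (-x₀) (-y₀)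
      (by linarith [neg_sq e₁, neg_sq e₂]) (by linarith) (by linarith)
      (by rwa [abs_of_nonpos a, abs_of_nonpos b] at h1)
      (by rwa [abs_of_nonpos a, abs_of_nonpos b] at h2)
      (by
        rw [abs_of_nonpos (by linarith : e₁ + e₂ ≤ 0)] at h4
        have : |-e₁ - -e₂| = |e₁ - e₂| := by rw [← abs_neg]; ring_nf
        rw [this]
        linarith)
    refine ⟨s, hs, -i, -j, ?_⟩
    push_cast
    have e : (x₀ + s * e₁ - 2 * Real.pi * -(i : ℝ)) ^ 2 +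
        (y₀ + s * e₂ - 2 * Real.pi * -(j : ℝ)) ^ 2 =
        (-x₀ + s * -e₁ - 2 * Real.pi * i) ^ 2 + (-y₀ + s * -e₂ - 2 * Real.pi * j) ^ 2 := by ring
    rw [e]; exact hij

theorem geoC : T_geoC := by
  intro k hk hC z₀
  have hn0 := nm_pos hk
  have hsq := nm_sq k
  have he : ((k.1 : ℝ) / nm k) ^ 2 + ((k.2 : ℝ) / nm k) ^ 2 = 1 := by
    rw [div_pow, div_pow, ← add_div, ← hsq, div_self (by positivity)]
  have key : ∀ p q : ℤ, |p| ≤ 400 * |q| → |(p : ℝ) / nm k| ≤ 400 * |(q : ℝ) / nm k| := by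
    intro p q h
    have h' : |(p : ℝ)| ≤ 400 * |(q : ℝ)| := by
      rw [← Int.cast_abs, ← Int.cast_abs]
      exact_mod_cast h
    rw [abs_div, abs_div, abs_of_pos hn0, ← mul_div_assoc]
    gcongr
  have c1 := hC (1, 0) (by simp [WW])
  have c2 := hC (0, 1) (by simp [WW])
  have c3 := hC (1, 1) (by simp [WW])
  have c4 := hC (1, -1) (by simp [WW])
  simp only [pe, al, mul_one, mul_zero, sub_zero, add_zero, zero_sub, zero_add, abs_neg,
    mul_neg, sub_neg_eq_add] at c1 c2 c3 c4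
  have d1 := key _ _ c1
  have d2 := key _ _ c2
  have d3 := key _ _ c3
  have d4 := key _ _ c4
  obtain ⟨s, hs, i, j, hij⟩ := geoC_gen ((k.1 : ℝ) / nm k) ((k.2 : ℝ) / nm k) z₀.1 z₀.2 he d1 d2
    (by rw [← sub_div, ← add_div]; exact_mod_cast d3)
    (by
      rw [← sub_div, ← add_div]
      have : ((k.2 : ℝ) + k.1) = k.1 + k.2 := add_comm _ _
      push_cast at d4
      first
        | exact d4
        | (rw [this] at d4; exact d4)
        | (rw [← sub_eq_add_neg] at d4; exact d4)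
        | (rw [this, ← sub_eq_add_neg] at d4; exact d4))
  refine ⟨s, hs, (i, j), ?_⟩
  rw [sub_zero]
  exact hij

end Pool.Agent.H80.VM
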